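import Mathlib

/-!
# The valence formula for truncated convex Morse functions fails in every dimension

For every `n ≥ 1` the polynomial `f(x) = g(‖x‖)`, `g(t) = t^6/30 - 5 t^4/12 + 2 t^2`, satisfies all
hypotheses (H); it has one critical point, the part of `Hess⁺(f)` below the level `scl(f) = 52/15` is
the open unit ball, and the gradient takes some value at least three times.  Note
`g''(t) = (t^2 - 1)(t^2 - 4)` and `g'(t) > 0` for `t > 0`.
-/

set_option autoImplicit false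

open Set Filter Topology

namespace Pool.Agent.Results.MP_d7bb9e_an.RadialCounterexample

/-- `ℝ^n` -/
abbrev E (n : ℕ) := EuclideanSpace ℝ (Fin n)

/-- The truncation `T_q(f) = max {q, f}`. -/
noncomputable def trunc {n : ℕ} (q : ℝ) (f : E n → ℝ) : E n → ℝ := fun x => max q (f x)

/-- The levels `q ≥ inf f` such that `T_r(f)` is convex for all `r ≥ q`. -/
def convexityLevels {n : ℕ} (f : E n → ℝ) : Set ℝ :=
  {q | (⨅ x, (f x : EReal)) ≤ (q : EReal) ∧ ∀ r ≥ q, ConvexOn ℝ univ (trunc r f)}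

/-- `f` is truncated convex. -/
def TruncatedConvex {n : ℕ} (f : E n → ℝ) : Prop := (convexityLevels f).Nonempty

/-- The smallest convexity level. -/
noncomputable def scl {n : ℕ} (f : E n → ℝ) : ℝ := sInf (convexityLevels f)

/-- The Hessian of `f` at `x` as a bilinear form. -/
noncomputable def hess {n : ℕ} (f : E n → ℝ) (x v w : E n) : ℝ := fderiv ℝ (fderiv ℝ f) x v w

/-- The set where the Hessian is positive definite. -/
def hessPos {n : ℕ} (f : E n → ℝ) : Set (E n) := {x | ∀ v, v ≠ 0 → 0 < hess f x v v}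

/-- The critical set. -/
def crit {n : ℕ} (f : E n → ℝ) : Set (E n) := {x | gradient f x = 0}

/-- `f` is Morse: the Hessian is nonsingular at every critical point. -/
def IsMorse {n : ℕ} (f : E n → ℝ) : Prop :=
  ∀ x ∈ crit f, ∀ v, (∀ w, hess f x v w = 0) → v = 0

/-- The valence of a map. -/
noncomputable def valence {n : ℕ} (F : E n → E n) : ℕ∞ := ⨆ y, (F ⁻¹' {y}).encard

/-- The hypotheses (H). -/
structure Hyp {n : ℕ} (f : E n → ℝ) : Prop where
  smooth : ContDiff ℝ 2 f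
  morse : IsMorse f
  not_convex : ¬ ConvexOn ℝ univ f
  truncatedConvex : TruncatedConvex f
  scl_mem : scl f ∈ range f
  scl_regular : ∀ x, f x = scl f → x ∉ crit f
  above_subset : {x | scl f < f x} ⊆ hessPos f

/-! ### One variable -/

/-- The profile. -/
noncomputable def g (t : ℝ) : ℝ := t ^ 6 / 30 - 5 * t ^ 4 / 12 + 2 * t ^ 2

lemma g_two : g 2 = 52 / 15 := by norm_num [g]

lemma g_tangent {t a : ℝ} (ht : 2 ≤ t) (ha : 2 ≤ a) :
    g a + (a ^ 5 / 5 - 5 * a ^ 3 / 3 + 4 * a) * (t - a) ≤ g t := by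
  obtain ⟨p, rfl⟩ : ∃ p, t = 2 + p := ⟨t - 2, by ring⟩
  obtain ⟨q, rfl⟩ : ∃ q, a = 2 + q := ⟨a - 2, by ring⟩
  have hp : 0 ≤ p := by linarith
  have hq : 0 ≤ q := by linarith
  have key : g (2 + p) - (g (2 + q) + ((2 + q) ^ 5 / 5 - 5 * (2 + q) ^ 3 / 3 + 4 * (2 + q)) *
      ((2 + p) - (2 + q))) = (p - q) ^ 2 * (((2 + p) ^ 4 + 2 * (2 + p) ^ 3 * (2 + q) +
        3 * (2 + p) ^ 2 * (2 + q) ^ 2 + 4 * (2 + p) * (2 + q) ^ 3 + 5 * (2 + q) ^ 4) / 30
        - 5 * ((2 + p) ^ 2 + 2 * (2 + p) * (2 + q) + 3 * (2 + q) ^ 2) / 12 + 2) := by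
    simp only [g]; ring
  have hpos : 0 ≤ ((2 + p) ^ 4 + 2 * (2 + p) ^ 3 * (2 + q) +
        3 * (2 + p) ^ 2 * (2 + q) ^ 2 + 4 * (2 + p) * (2 + q) ^ 3 + 5 * (2 + q) ^ 4) / 30
        - 5 * ((2 + p) ^ 2 + 2 * (2 + p) * (2 + q) + 3 * (2 + q) ^ 2) / 12 + 2 := by
    have : ((2 + p) ^ 4 + 2 * (2 + p) ^ 3 * (2 + q) +
        3 * (2 + p) ^ 2 * (2 + q) ^ 2 + 4 * (2 + p) * (2 + q) ^ 3 + 5 * (2 + q) ^ 4) / 30
        - 5 * ((2 + p) ^ 2 + 2 * (2 + p) * (2 + q) + 3 * (2 + q) ^ 2) / 12 + 2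
        = (p ^ 4 + 2 * p ^ 3 * q + 3 * p ^ 2 * q ^ 2 + 4 * p * q ^ 3 + 5 * q ^ 4) / 30
          + (2 * p ^ 3 + 4 * p ^ 2 * q + 6 * p * q ^ 2 + 8 * q ^ 3) / 5
          + (19 * p ^ 2 + 38 * p * q + 57 * q ^ 2) / 12 + 2 * p + 4 * q := by ring
    rw [this]
    positivity
  have := mul_nonneg (sq_nonneg (p - q)) hpos
  linarith [key]

lemma g_concave {w : ℝ} (h0 : 0 < w) (h1 : w ≤ 1) : g (2 - w) + g 2 < 2 * g (2 - w / 2) := by
  have key : 2 * g (2 - w / 2) - g (2 - w) - g 2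
      = w ^ 3 * ((3 / 2 - 133 / 96 * w) + w ^ 2 * (3 / 8 - 31 / 960 * w)) := by
    simp only [g]; ring
  have h2 : 0 < 3 / 2 - 133 / 96 * w := by linarith
  have h3 : 0 < 3 / 8 - 31 / 960 * w := by linarith
  have : 0 < w ^ 3 * ((3 / 2 - 133 / 96 * w) + w ^ 2 * (3 / 8 - 31 / 960 * w)) := by positivity
  linarith

lemma g_le_two {t : ℝ} (h0 : 0 ≤ t) (h : t ≤ 2) : g t ≤ 52 / 15 := by
  have h4 : t ^ 2 ≤ 4 := by nlinarith
  have key : 52 / 15 - g t = (4 - t ^ 2) * ((t ^ 2) ^ 2 / 30 - 17 / 60 * t ^ 2 + 13 / 15) := by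
    simp only [g]; ring
  have h5 : 0 ≤ (t ^ 2) ^ 2 / 30 - 17 / 60 * t ^ 2 + 13 / 15 := by nlinarith [sq_nonneg (t ^ 2 - 4)]
  have := mul_nonneg (by linarith : 0 ≤ 4 - t ^ 2) h5
  linarith

lemma g_gt_two {t : ℝ} (h : 2 < t) : 52 / 15 < g t := by
  have h4 : 4 < t ^ 2 := by nlinarith
  have key : g t - 52 / 15 = (t ^ 2 - 4) * ((t ^ 2) ^ 2 / 30 - 17 / 60 * t ^ 2 + 13 / 15) := by
    simp only [g]; ring
  have h5 : 0 < (t ^ 2) ^ 2 / 30 - 17 / 60 * t ^ 2 + 13 / 15 := by nlinarith [sq_nonneg (t ^ 2 - 4)]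
  have := mul_pos (by linarith : 0 < t ^ 2 - 4) h5
  linarith

lemma continuous_g : Continuous g := by unfold g; fun_prop

/-! ### The function -/

/-- The counterexample. -/
noncomputable def fn (n : ℕ) : E n → ℝ := fun x => g ‖x‖

/-- `∇f(x) = A(‖x‖^2) x` -/
noncomputable def A (s : ℝ) : ℝ := s ^ 2 / 5 - 5 * s / 3 + 4

lemma A_pos (s : ℝ) : 0 < A s := by unfold A; nlinarith [sq_nonneg (s - 25 / 6)]

lemma hasFDerivAt_fn {n : ℕ} (x : E n) : HasFDerivAt (fn n) (A (‖x‖ ^ 2) • innerSL ℝ x) x := by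
  have h : HasFDerivAt (fun y : E n => ‖y‖ ^ 2) (2 • innerSL ℝ x) x :=
    (hasStrictFDerivAt_norm_sq x).hasFDerivAt
  have hP : HasDerivAt (fun s : ℝ => s ^ 3 / 30 - 5 * s ^ 2 / 12 + 2 * s) (A (‖x‖ ^ 2) / 2)
      (‖x‖ ^ 2) := by
    have := (((hasDerivAt_id (‖x‖ ^ 2)).pow 3).div_const 30).sub
      ((((hasDerivAt_id (‖x‖ ^ 2)).pow 2).const_mul 5).div_const 12) |>.add
      ((hasDerivAt_id (‖x‖ ^ 2)).const_mul 2)
    refine this.congr_deriv ?_
    simp [A]; ring
  have := hP.comp_hasFDerivAt x h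
  have hfn : fn n = (fun s : ℝ => s ^ 3 / 30 - 5 * s ^ 2 / 12 + 2 * s) ∘ fun y : E n => ‖y‖ ^ 2 := by
    funext y; simp only [fn, g, Function.comp]; ring
  rw [hfn]
  refine this.congr_fderiv ?_
  ext v
  simp
  ring

lemma fderiv_fn {n : ℕ} : fderiv ℝ (fn n) = fun x => A (‖x‖ ^ 2) • innerSL ℝ x :=
  funext fun x => (hasFDerivAt_fn x).fderiv

lemma hess_fn {n : ℕ} (x v w : E n) : hess (fn n) x v w =
    A (‖x‖ ^ 2) * inner ℝ v w + 2 * (2 * ‖x‖ ^ 2 / 5 - 5 / 3) * inner ℝ x v * inner ℝ x w := by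
  have h : HasFDerivAt (fun y : E n => ‖y‖ ^ 2) (2 • innerSL ℝ x) x :=
    (hasStrictFDerivAt_norm_sq x).hasFDerivAt
  have hA : HasDerivAt A (2 * ‖x‖ ^ 2 / 5 - 5 / 3) (‖x‖ ^ 2) := by
    have := (((hasDerivAt_id (‖x‖ ^ 2)).pow 2).div_const 5).sub
      (((hasDerivAt_id (‖x‖ ^ 2)).const_mul 5).div_const 3) |>.add_const 4
    refine this.congr_deriv ?_
    simp
  have h1 := hA.comp_hasFDerivAt x h
  have h2 : HasFDerivAt (fun y : E n => innerSL ℝ y) (innerSL ℝ : E n →L[ℝ] E n →L[ℝ] ℝ) x :=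
    (innerSL ℝ : E n →L[ℝ] E n →L[ℝ] ℝ).hasFDerivAt
  have h3 := h1.smul h2
  unfold hess
  rw [fderiv_fn, show (fun x : E n => A (‖x‖ ^ 2) • innerSL ℝ x)
    = (A ∘ fun y : E n => ‖y‖ ^ 2) • fun y => innerSL ℝ y from rfl, h3.fderiv]
  have h5 : ((innerSL ℝ : E n →L[ℝ] E n →L[ℝ] ℝ) v) w = inner ℝ v w := rfl
  simp [h5]
  left
  ring

lemma contDiff_fn {n : ℕ} : ContDiff ℝ 2 (fn n) := by
  have : fn n = fun x : E n => (‖x‖ ^ 2) ^ 3 / 30 - 5 * (‖x‖ ^ 2) ^ 2 / 12 + 2 * ‖x‖ ^ 2 := by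
    ext x; simp only [fn, g]; ring
  rw [this]
  have h : ContDiff ℝ 2 (fun x : E n => ‖x‖ ^ 2) := contDiff_norm_sq ℝ
  fun_prop

lemma gradient_fn {n : ℕ} (x : E n) : gradient (fn n) x = A (‖x‖ ^ 2) • x := by
  refine HasGradientAt.gradient ?_
  rw [hasGradientAt_iff_hasFDerivAt]
  refine (hasFDerivAt_fn x).congr_fderiv ?_
  ext v
  simp

lemma crit_fn {n : ℕ} : crit (fn n) = {0} := by
  ext x
  simp only [crit, mem_ofPred_eq, gradient_fn, mem_singleton_iff, smul_eq_zero]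
  constructor
  · rintro (h | h)
    · exact absurd h (A_pos _).ne'
    · exact h
  · exact Or.inr

lemma hessPos_fn {n : ℕ} : hessPos (fn n) = {x | 0 < (‖x‖ ^ 2 - 1) * (‖x‖ ^ 2 - 4)} := by
  ext x
  simp only [hessPos, mem_ofPred_eq, hess_fn]
  set s := ‖x‖ ^ 2 with hs
  have hs0 : 0 ≤ s := by positivity
  constructor
  · intro h
    by_cases hx : x = 0
    · subst hx
      simp at hs
      rw [hs]; norm_num
    · have h1 := h x hx
      rw [real_inner_self_eq_norm_sq, ← hs] at h1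
      have hsp : 0 < s := by rw [hs]; have := norm_pos_iff.2 hx; positivity
      have h2 : A s * s + 2 * (2 * s / 5 - 5 / 3) * s * s = s * ((s - 1) * (s - 4)) := by
        simp only [A]; ring
      rw [h2] at h1
      exact (mul_pos_iff_of_pos_left hsp).1 h1
  · intro h v hv
    have hvp : 0 < ‖v‖ ^ 2 := by have := norm_pos_iff.2 hv; positivity
    rw [real_inner_self_eq_norm_sq]
    have hcs : (inner ℝ x v) ^ 2 ≤ s * ‖v‖ ^ 2 := by
      have := abs_real_inner_le_norm x v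
      rw [hs, ← mul_pow, ← sq_abs (inner ℝ x v)]
      exact pow_le_pow_left₀ (abs_nonneg _) this 2
    have hcs0 : 0 ≤ (inner ℝ x v) ^ 2 := sq_nonneg _
    rcases le_or_gt 0 (2 * s / 5 - 5 / 3) with h1 | h1
    · have := mul_nonneg (mul_nonneg zero_le_two h1) hcs0
      have := mul_pos (A_pos s) hvp
      nlinarith
    · have h2 : A s * ‖v‖ ^ 2 + 2 * (2 * s / 5 - 5 / 3) * (s * ‖v‖ ^ 2)
          = ((s - 1) * (s - 4)) * ‖v‖ ^ 2 := by simp only [A]; ring
      have h3 := mul_pos h hvp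
      have h4 := mul_le_mul_of_nonpos_left hcs (by linarith : 2 * (2 * s / 5 - 5 / 3) ≤ 0)
      nlinarith

lemma g_le_of_convex {a : ℝ} {r t : ℝ} (hr : 52 / 15 ≤ r) (ha : 2 ≤ a) :
    g a + (a ^ 5 / 5 - 5 * a ^ 3 / 3 + 4 * a) * (t - a) ≤ max r (g t) := by
  rcases le_or_gt 2 t with h | h
  · exact (g_tangent h ha).trans (le_max_right _ _)
  · have h1 := g_tangent (le_refl (2:ℝ)) ha
    have h2 : 0 ≤ a ^ 5 / 5 - 5 * a ^ 3 / 3 + 4 * a := by
      have : a ^ 5 / 5 - 5 * a ^ 3 / 3 + 4 * a = a * A (a ^ 2) := by simp only [A]; ring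
      rw [this]
      exact mul_nonneg (by linarith) (A_pos _).le
    rw [g_two] at h1
    have h3 := mul_le_mul_of_nonneg_left (by linarith : t - a ≤ 2 - a) h2
    exact le_trans (by linarith) (le_max_left _ _)

lemma convexOn_trunc {n : ℕ} {r : ℝ} (hr : 52 / 15 ≤ r) : ConvexOn ℝ univ (trunc r (fn n)) := by
  refine ⟨convex_univ, ?_⟩
  intro x _ y _ a b ha hb hab
  simp only [trunc, fn, smul_eq_mul]
  have hx0 := norm_nonneg x
  have hy0 := norm_nonneg y
  refine max_le ?_ ?_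
  · calc r = a * r + b * r := by rw [← add_mul, hab, one_mul]
      _ ≤ _ := add_le_add (mul_le_mul_of_nonneg_left (le_max_left _ _) ha)
        (mul_le_mul_of_nonneg_left (le_max_left _ _) hb)
  · set c := ‖a • x + b • y‖ with hc
    have hcle : c ≤ a * ‖x‖ + b * ‖y‖ := by
      rw [hc]
      refine (norm_add_le _ _).trans ?_
      rw [norm_smul, norm_smul, Real.norm_of_nonneg ha, Real.norm_of_nonneg hb]
    have hc0 : 0 ≤ c := norm_nonneg _
    rcases le_or_gt c 2 with h | h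
    · calc g c ≤ 52 / 15 := g_le_two hc0 h
        _ ≤ r := hr
        _ = a * r + b * r := by rw [← add_mul, hab, one_mul]
        _ ≤ _ := add_le_add (mul_le_mul_of_nonneg_left (le_max_left _ _) ha)
          (mul_le_mul_of_nonneg_left (le_max_left _ _) hb)
    · have h1 := g_le_of_convex (t := ‖x‖) hr h.le
      have h2 := g_le_of_convex (t := ‖y‖) hr h.le
      have h3 : 0 ≤ c ^ 5 / 5 - 5 * c ^ 3 / 3 + 4 * c := by
        have : c ^ 5 / 5 - 5 * c ^ 3 / 3 + 4 * c = c * A (c ^ 2) := by simp only [A]; ring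
        rw [this]
        exact mul_nonneg hc0 (A_pos _).le
      have h4 := mul_le_mul_of_nonneg_left h1 ha
      have h5 := mul_le_mul_of_nonneg_left h2 hb
      have h6 := mul_le_mul_of_nonneg_left (by linarith : 0 ≤ a * ‖x‖ + b * ‖y‖ - c) h3
      have h7 : a * (g c + (c ^ 5 / 5 - 5 * c ^ 3 / 3 + 4 * c) * (‖x‖ - c)) +
          b * (g c + (c ^ 5 / 5 - 5 * c ^ 3 / 3 + 4 * c) * (‖y‖ - c))
          = g c + (c ^ 5 / 5 - 5 * c ^ 3 / 3 + 4 * c) * (a * ‖x‖ + b * ‖y‖ - c) := by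
        have hb' : b = 1 - a := by linarith
        rw [hb']; ring
      linarith

section dim

variable {m : ℕ}

/-- a unit vector -/
noncomputable def e (m : ℕ) : E (m + 1) := EuclideanSpace.single 0 1

lemma norm_e : ‖e m‖ = 1 := by simp [e]

lemma norm_smul_e {t : ℝ} (ht : 0 ≤ t) : ‖t • e m‖ = t := by
  rw [norm_smul, norm_e, mul_one, Real.norm_of_nonneg ht]

lemma levels_fn : convexityLevels (fn (m + 1)) = Ici (52 / 15) := by
  ext q
  simp only [convexityLevels, mem_ofPred_eq, mem_Ici]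
  constructor
  · rintro ⟨-, h⟩
    by_contra hq
    push Not at hq
    have hcont : Tendsto (fun w : ℝ => g (2 - w)) (𝓝[>] 0) (𝓝 (g (2 - 0))) :=
      ((continuous_g.comp (continuous_const.sub continuous_id)).tendsto 0).mono_left
        nhdsWithin_le_nhds
    rw [sub_zero, g_two] at hcont
    have h1 := hcont.eventually (lt_mem_nhds hq)
    have h2 : ∀ᶠ w : ℝ in 𝓝[>] 0, w < 1 := nhdsWithin_le_nhds (gt_mem_nhds one_pos)
    obtain ⟨w, ⟨hw1, hw2⟩, hw0⟩ := ((h1.and h2).and self_mem_nhdsWithin).exists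
    have hw0 : 0 < w := hw0
    have hc := (h q le_rfl).2 (mem_univ ((2 - w) • e m)) (mem_univ ((2:ℝ) • e m))
      (by norm_num : (0:ℝ) ≤ 1 / 2) (by norm_num : (0:ℝ) ≤ 1 / 2) (by norm_num)
    have he : (1 / 2 : ℝ) • (2 - w) • e m + (1 / 2 : ℝ) • (2:ℝ) • e m = (2 - w / 2) • e m := by
      rw [smul_smul, smul_smul, ← add_smul]; congr 1; ring
    rw [he] at hc
    simp only [trunc, fn, smul_eq_mul] at hc
    rw [norm_smul_e (by linarith), norm_smul_e (by linarith), norm_smul_e (by linarith)] at hc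
    rw [max_eq_right hw1.le, max_eq_right (show q ≤ g 2 by rw [g_two]; exact hq.le)] at hc
    have := g_concave hw0 hw2.le
    have := le_max_right q (g (2 - w / 2))
    linarith
  · intro hq
    refine ⟨?_, fun r hr => convexOn_trunc (le_trans hq hr)⟩
    refine (iInf_le _ 0).trans ?_
    have : fn (m + 1) 0 = 0 := by simp [fn, g]
    rw [this]
    exact_mod_cast (by linarith : (0:ℝ) ≤ q)

lemma scl_fn : scl (fn (m + 1)) = 52 / 15 := by
  rw [scl, levels_fn, csInf_Ici]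

lemma lt_fn_iff {n : ℕ} (x : E n) : 52 / 15 < fn n x ↔ 2 < ‖x‖ := by
  constructor
  · intro h
    by_contra hc
    push Not at hc
    exact absurd h (not_lt.2 (g_le_two (norm_nonneg x) hc))
  · exact fun h => g_gt_two h

lemma hyp_fn : Hyp (fn (m + 1)) where
  smooth := contDiff_fn
  morse := by
    intro x hx v hv
    rw [crit_fn, mem_singleton_iff] at hx
    subst hx
    have := hv v
    rw [hess_fn] at this
    simp [A] at this
    exact this
  not_convex := by
    intro h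
    have h1 : (0:ℝ) ∈ convexityLevels (fn (m + 1)) := by
      refine ⟨?_, fun r _ => ?_⟩
      · refine (iInf_le _ 0).trans ?_
        have : fn (m + 1) 0 = 0 := by simp [fn, g]
        rw [this]
      · exact (convexOn_const r convex_univ).sup h
    rw [levels_fn] at h1
    norm_num at h1
  truncatedConvex := by
    rw [TruncatedConvex, levels_fn]
    exact nonempty_Ici
  scl_mem := by
    rw [scl_fn]
    exact ⟨(2:ℝ) • e m, by rw [fn, norm_smul_e (by norm_num), g_two]⟩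
  scl_regular := by
    intro x hx hc
    rw [crit_fn, mem_singleton_iff] at hc
    subst hc
    rw [scl_fn] at hx
    simp [fn, g] at hx
    norm_num at hx
  above_subset := by
    intro x hx
    rw [mem_ofPred_eq, scl_fn, lt_fn_iff] at hx
    rw [hessPos_fn, mem_ofPred_eq]
    have : 4 < ‖x‖ ^ 2 := by nlinarith
    exact mul_pos (by linarith) (by linarith)

lemma below_fn : hessPos (fn (m + 1)) \ {x | scl (fn (m + 1)) < fn (m + 1) x}
    = Metric.ball (0 : E (m + 1)) 1 := by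
  ext x
  rw [Set.mem_sdiff, hessPos_fn, scl_fn]
  simp only [mem_ofPred_eq, mem_ball_zero_iff, lt_fn_iff, not_lt]
  have h0 := norm_nonneg x
  constructor
  · rintro ⟨h1, h2⟩
    by_contra hc
    push Not at hc
    have h3 : 1 ≤ ‖x‖ ^ 2 := by nlinarith
    have h4 : ‖x‖ ^ 2 ≤ 4 := by nlinarith
    have := mul_nonneg (by linarith : 0 ≤ ‖x‖ ^ 2 - 1) (by linarith : 0 ≤ 4 - ‖x‖ ^ 2)
    linarith
  · intro h
    have h3 : ‖x‖ ^ 2 < 1 := by nlinarith
    exact ⟨mul_pos_of_neg_of_neg (by linarith) (by linarith), by linarith⟩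

lemma card_comp : ENat.card (ConnectedComponents
    ↥(hessPos (fn (m + 1)) \ {x | scl (fn (m + 1)) < fn (m + 1) x})) = 1 := by
  rw [below_fn]
  have hconn : IsConnected (Metric.ball (0 : E (m + 1)) 1) :=
    (convex_ball (0 : E (m + 1)) 1).isConnected ⟨0, Metric.mem_ball_self one_pos⟩
  have : ConnectedSpace ↥(Metric.ball (0 : E (m + 1)) 1) := isConnected_iff_connectedSpace.1 hconn
  have : Subsingleton (ConnectedComponents ↥(Metric.ball (0 : E (m + 1)) 1)) := by
    constructor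
    intro a b
    induction a using Quotient.inductionOn with | _ a
    induction b using Quotient.inductionOn with | _ b
    refine ConnectedComponents.coe_eq_coe.2 ?_
    rw [PreconnectedSpace.connectedComponent_eq_univ, PreconnectedSpace.connectedComponent_eq_univ]
  have : Nonempty (ConnectedComponents ↥(Metric.ball (0 : E (m + 1)) 1)) :=
    ⟨ConnectedComponents.mk ⟨0, Metric.mem_ball_self one_pos⟩⟩
  exact ENat.card_eq_one_iff_unique.2 (nonempty_unique _)

/-- the derivative of the profile -/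
noncomputable def g' (t : ℝ) : ℝ := t ^ 5 / 5 - 5 * t ^ 3 / 3 + 4 * t

lemma grad_smul_e {t : ℝ} (ht : 0 ≤ t) : gradient (fn (m + 1)) (t • e m) = g' t • e m := by
  rw [gradient_fn, norm_smul_e ht, smul_smul]
  congr 1
  simp only [A, g']; ring

lemma three_le_valence : 3 ≤ valence (gradient (fn (m + 1))) := by
  have hc : Continuous g' := by unfold g'; fun_prop
  obtain ⟨t1, ⟨h1a, h1b⟩, h1⟩ := intermediate_value_Ioo (zero_le_one) hc.continuousOn
    (show (2:ℝ) ∈ Ioo (g' 0) (g' 1) by simp only [g']; norm_num)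
  obtain ⟨t2, ⟨h2a, h2b⟩, h2⟩ := intermediate_value_Ioo' (by norm_num : (1:ℝ) ≤ 2) hc.continuousOn
    (show (2:ℝ) ∈ Ioo (g' 2) (g' 1) by simp only [g']; norm_num)
  obtain ⟨t3, ⟨h3a, h3b⟩, h3⟩ := intermediate_value_Ioo (by norm_num : (2:ℝ) ≤ 3) hc.continuousOn
    (show (2:ℝ) ∈ Ioo (g' 2) (g' 3) by simp only [g']; norm_num)
  refine le_trans ?_ (le_iSup _ ((2:ℝ) • e m))
  have hne : ∀ s t : ℝ, 0 ≤ s → s < t → s • e m ≠ t • e m := by
    intro s t hs hst h
    have := congrArg norm h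
    rw [norm_smul_e hs, norm_smul_e (by linarith)] at this
    linarith
  have hcard : ({t1 • e m, t2 • e m, t3 • e m} : Set (E (m + 1))).encard = 3 :=
    Set.encard_eq_three.2 ⟨_, _, _, hne _ _ h1a.le (by linarith), hne _ _ h1a.le (by linarith),
      hne _ _ (by linarith) (by linarith), rfl⟩
  rw [← hcard]
  refine Set.encard_le_encard ?_
  rintro x (rfl | rfl | rfl)
  · rw [mem_preimage, grad_smul_e h1a.le, h1]; rfl
  · rw [mem_preimage, grad_smul_e (by linarith), h2]; rfl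
  · rw [mem_preimage, grad_smul_e (by linarith), h3]; rfl

end dim

/-- In every dimension `n ≥ 1` there is a function `f` satisfying the hypotheses (H) with exactly one
critical point, for which `Hess⁺(f) \ f⁻¹(scl f, ∞)` has exactly one connected component and the
gradient has valence at least three. Hence both equalities
`Val(∇f) = card C(f) = card π₀(Hess⁺(f) \ f⁻¹(scl f, ∞)) + 1` fail (and so does the equality of the
first and the last number). -/
theorem result (n : ℕ) (hn : 1 ≤ n) : ∃ f : E n → ℝ, Hyp f ∧ (crit f).encard = 1 ∧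
    ENat.card (ConnectedComponents ↥(hessPos f \ {x | scl f < f x})) = 1 ∧
    3 ≤ valence (gradient f) ∧
    valence (gradient f) ≠ (crit f).encard ∧
    (crit f).encard ≠ ENat.card (ConnectedComponents ↥(hessPos f \ {x | scl f < f x})) + 1 ∧
    valence (gradient f) ≠
      ENat.card (ConnectedComponents ↥(hessPos f \ {x | scl f < f x})) + 1 := by
  obtain ⟨m, rfl⟩ : ∃ m, n = m + 1 := ⟨n - 1, by omega⟩
  have h1 : (crit (fn (m + 1))).encard = 1 := by rw [crit_fn, encard_singleton]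
  have h3 := three_le_valence (m := m)
  refine ⟨fn (m + 1), hyp_fn, h1, card_comp, h3, ?_, ?_, ?_⟩
  · rw [h1]
    intro h
    rw [h] at h3
    exact absurd h3 (by decide)
  · rw [h1, card_comp]
    decide
  · rw [card_comp]
    intro h
    rw [h] at h3
    exact absurd h3 (by decide)

end Pool.Agent.Results.MP_d7bb9e_an.RadialCounterexample
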